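import Pool.Agent.helper7.DF.Spec3

set_option autoImplicit false

open Finset

namespace Pool.Agent.DFO

/-- `1/(1-t) ≤ exp (K t)` for `0 ≤ t ≤ q`, `K = 1/(1-q)`. -/
theorem RNC_geo (t q : ℝ) (h0 : 0 ≤ t) (h1 : t ≤ q) (h2 : q < 1) : (1 - t)⁻¹ ≤ Real.exp ((1 - q)⁻¹ * t) := by
  have h3 : 0 < 1 - q := by linarith
  have h4 : 0 < 1 - t := by linarith
  have h5 : (1 - t)⁻¹ ≤ (1 - q)⁻¹ := inv_anti₀ h3 (by linarith)
  have h6 : (1 - t)⁻¹ = (1 - t)⁻¹ * t + 1 := by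
    have h7 : (1 - t)⁻¹ * (1 - t) = 1 := inv_mul_cancel₀ h4.ne'
    linarith
  have h8 := Real.add_one_le_exp ((1 - q)⁻¹ * t)
  have h9 := mul_le_mul_of_nonneg_right h5 h0
  linarith

/-- The multiplicative function `n ^ (-σ)`. -/
noncomputable def RNC_f (σ : ℝ) : ℕ →* ℝ where
  toFun n := (n : ℝ) ^ (-σ)
  map_one' := by
    rw [Nat.cast_one, Real.one_rpow]
  map_mul' m n := by
    rw [Nat.cast_mul, Real.mul_rpow (Nat.cast_nonneg m) (Nat.cast_nonneg n)]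

theorem RNC_f_apply (σ : ℝ) (n : ℕ) : RNC_f σ n = (n : ℝ) ^ (-σ) := rfl

theorem RNC_two (σ : ℝ) (hσ : 0 < σ) : (2 : ℝ) ^ (-σ) < 1 :=
  Real.rpow_lt_one_of_one_lt_of_neg (by norm_num) (by linarith)

theorem RNC_prime (σ : ℝ) (hσ : 0 < σ) (p : ℕ) (hp : p.Prime) : (p : ℝ) ^ (-σ) ≤ (2 : ℝ) ^ (-σ) := by
  have h2 : (2 : ℝ) ≤ p := by exact_mod_cast hp.two_le
  exact Real.rpow_le_rpow_of_nonpos (by norm_num) h2 (by linarith)

/-- Rankin's bound. -/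
theorem RNC_rankin (σ : ℝ) (hσ : 0 < σ) (X y : ℕ) (E : Finset ℕ)
    (hE : ∀ m ∈ E, 0 < m ∧ m ≤ 2 * X ∧ ∀ p : ℕ, p.Prime → p ∣ m → p ≤ y) :
    (#E : ℝ) ≤ (2 * X : ℝ) ^ σ * ∏ p ∈ Nat.primesBelow (y + 1), (1 - (p : ℝ) ^ (-σ))⁻¹ := by
  have h1 := EulerProduct.summable_and_hasSum_smoothNumbers_prod_primesBelow_geometric (f := RNC_f σ)
    (fun {p} hp => by
      rw [RNC_f_apply, Real.norm_of_nonneg (Real.rpow_nonneg (Nat.cast_nonneg p) _)]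
      linarith [RNC_prime σ hσ p hp, RNC_two σ hσ]) (y + 1)
  have h2 : HasSum (Set.indicator (Nat.smoothNumbers (y + 1)) (fun m : ℕ => RNC_f σ m))
      (∏ p ∈ Nat.primesBelow (y + 1), (1 - RNC_f σ p)⁻¹) := by
    rw [← hasSum_subtype_iff_indicator]
    exact h1.2
  have h3 : ∑ m ∈ E, Set.indicator (Nat.smoothNumbers (y + 1)) (fun m : ℕ => RNC_f σ m) m ≤
      ∏ p ∈ Nat.primesBelow (y + 1), (1 - RNC_f σ p)⁻¹ :=
    sum_le_hasSum E (fun m _ => Set.indicator_nonneg (fun n _ => by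
      rw [RNC_f_apply]; exact Real.rpow_nonneg (Nat.cast_nonneg n) _) m) h2
  have h4 : ∀ m ∈ E, m ∈ Nat.smoothNumbers (y + 1) := by
    intro m hm
    obtain ⟨ha, -, hc⟩ := hE m hm
    rw [Nat.mem_smoothNumbers']
    intro p hp hpm
    exact Nat.lt_succ_of_le (hc p hp hpm)
  have h5 : ∑ m ∈ E, Set.indicator (Nat.smoothNumbers (y + 1)) (fun m : ℕ => RNC_f σ m) m =
      ∑ m ∈ E, (m : ℝ) ^ (-σ) := by
    refine Finset.sum_congr rfl fun m hm => ?_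
    rw [Set.indicator_of_mem (h4 m hm), RNC_f_apply]
  rw [h5] at h3
  have h6 : (#E : ℝ) ≤ (2 * X : ℝ) ^ σ * ∑ m ∈ E, (m : ℝ) ^ (-σ) := by
    rw [Finset.mul_sum]
    have h7 : (#E : ℝ) = ∑ _m ∈ E, (1 : ℝ) := by
      rw [Finset.sum_const, nsmul_eq_mul, mul_one]
    rw [h7]
    refine Finset.sum_le_sum fun m hm => ?_
    obtain ⟨ha, hb, -⟩ := hE m hm
    have hm0 : (0 : ℝ) < m := by exact_mod_cast ha
    have hm1 : (m : ℝ) ≤ 2 * X := by exact_mod_cast hb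
    rw [Real.rpow_neg hm0.le, ← div_eq_mul_inv, one_le_div (Real.rpow_pos_of_pos hm0 _)]
    exact Real.rpow_le_rpow hm0.le hm1 (by linarith)
  refine h6.trans (mul_le_mul_of_nonneg_left h3 (Real.rpow_nonneg (by positivity) _))

/-- `∑_{n ≤ y} n^(-σ) ≤ y^(1-σ)/(1-σ)`. -/
theorem RNC_sum (σ : ℝ) (h0 : 0 ≤ σ) (h1 : σ < 1) (y : ℕ) :
    ∑ n ∈ range y, ((n + 1 : ℕ) : ℝ) ^ (-σ) ≤ (y : ℝ) ^ (1 - σ) / (1 - σ) := by
  have hs : 0 < 1 - σ := by linarith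
  induction y with
  | zero =>
    rw [Finset.range_zero, Finset.sum_empty]
    exact div_nonneg (Real.rpow_nonneg (Nat.cast_nonneg _) _) hs.le
  | succ n ih =>
    rw [Finset.sum_range_succ]
    have hn : (0 : ℝ) < ((n + 1 : ℕ) : ℝ) := by exact_mod_cast Nat.succ_pos n
    have h2 : (n : ℝ) ^ (1 - σ) ≤ ((n + 1 : ℕ) : ℝ) ^ (1 - σ) - (1 - σ) * ((n + 1 : ℕ) : ℝ) ^ (-σ) := by
      have h3 := _root_.rpow_one_add_le_one_add_mul_self (s := -(1 / ((n + 1 : ℕ) : ℝ))) (p := 1 - σ)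
        (by
          have : 1 / ((n + 1 : ℕ) : ℝ) ≤ 1 := by
            rw [div_le_one hn]
            exact_mod_cast Nat.succ_le_succ (Nat.zero_le n)
          linarith) hs.le (by linarith)
      have h4 : (n : ℝ) = ((n + 1 : ℕ) : ℝ) * (1 + -(1 / ((n + 1 : ℕ) : ℝ))) := by
        field_simp
        push_cast
        ring
      have h5 : (0 : ℝ) ≤ 1 + -(1 / ((n + 1 : ℕ) : ℝ)) := by
        have : 1 / ((n + 1 : ℕ) : ℝ) ≤ 1 := by
          rw [div_le_one hn]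
          exact_mod_cast Nat.succ_le_succ (Nat.zero_le n)
        linarith
      have h6 : (n : ℝ) ^ (1 - σ) = ((n + 1 : ℕ) : ℝ) ^ (1 - σ) * (1 + -(1 / ((n + 1 : ℕ) : ℝ))) ^ (1 - σ) := by
        rw [← Real.mul_rpow hn.le h5, ← h4]
      rw [h6]
      have h7 : ((n + 1 : ℕ) : ℝ) ^ (-σ) = ((n + 1 : ℕ) : ℝ) ^ (1 - σ) * (1 / ((n + 1 : ℕ) : ℝ)) := by
        rw [one_div, ← Real.rpow_neg_one, ← Real.rpow_add hn]
        congr 1
        ring
      rw [h7]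
      calc ((n + 1 : ℕ) : ℝ) ^ (1 - σ) * (1 + -(1 / ((n + 1 : ℕ) : ℝ))) ^ (1 - σ)
          ≤ ((n + 1 : ℕ) : ℝ) ^ (1 - σ) * (1 + (1 - σ) * -(1 / ((n + 1 : ℕ) : ℝ))) :=
            mul_le_mul_of_nonneg_left h3 (Real.rpow_nonneg hn.le _)
        _ = ((n + 1 : ℕ) : ℝ) ^ (1 - σ) - (1 - σ) * (((n + 1 : ℕ) : ℝ) ^ (1 - σ) * (1 / ((n + 1 : ℕ) : ℝ))) := by
            ring
    have h8 : (n : ℝ) ^ (1 - σ) / (1 - σ) + ((n + 1 : ℕ) : ℝ) ^ (-σ) ≤ ((n + 1 : ℕ) : ℝ) ^ (1 - σ) / (1 - σ) := by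
      rw [div_add' _ _ _ hs.ne', div_le_div_iff_of_pos_right hs]
      linarith
    linarith

theorem RNC_main (c ε : ℝ) (hc : 1 < c) (hε : 0 < ε) (hε1 : ε ≤ 1 / c) (X y : ℕ) (hX : 1 ≤ X)
    (hL1 : 8 * c * (1 - (2 : ℝ) ^ (-(1 - 1 / c + ε / 2)))⁻¹ / ε * 3 ≤ Real.log X ^ (c * ε / 2)) (hL2 : 4 ≤ ε * Real.log X)
    (hy : (y : ℝ) ≤ Real.log X ^ c) (E : Finset ℕ)
    (hE : ∀ m ∈ E, 0 < m ∧ m ≤ 2 * X ∧ ∀ p : ℕ, p.Prime → p ∣ m → p ≤ y) :
    (#E : ℝ) ≤ (X : ℝ) ^ (1 - 1 / c + ε) := by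
  set L : ℝ := Real.log X with hLdef
  have hL : 0 < L := by
    by_contra h
    have : ε * L ≤ 0 := mul_nonpos_of_nonneg_of_nonpos hε.le (not_lt.1 h)
    linarith
  have hX0 : (0 : ℝ) < X := by exact_mod_cast hX
  have hc0 : 0 < c := by linarith
  have hc1 : 1 / c < 1 := by rw [div_lt_one hc0]; exact hc
  have hc2 : 0 < 1 / c := by positivity
  set σ : ℝ := 1 - 1 / c + ε / 2 with hσ
  have hσ1 : 0 < σ := by rw [hσ]; linarith
  have hσ2 : σ < 1 := by rw [hσ]; linarith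
  have hσ3 : 1 / c / 2 ≤ 1 - σ := by rw [hσ]; linarith
  have hq := RNC_two σ hσ1
  set K : ℝ := (1 - (2 : ℝ) ^ (-σ))⁻¹ with hK
  have hK0 : 0 < K := by rw [hK]; exact inv_pos.2 (by linarith)
  have h1 := RNC_rankin σ hσ1 X y E hE
  -- the product
  have h2 : ∏ p ∈ Nat.primesBelow (y + 1), (1 - (p : ℝ) ^ (-σ))⁻¹ ≤ Real.exp (K * ∑ n ∈ range y, ((n + 1 : ℕ) : ℝ) ^ (-σ)) := by
    have h3 : ∏ p ∈ Nat.primesBelow (y + 1), (1 - (p : ℝ) ^ (-σ))⁻¹ ≤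
        ∏ p ∈ Nat.primesBelow (y + 1), Real.exp (K * (p : ℝ) ^ (-σ)) := by
      refine Finset.prod_le_prod (fun p hp => ?_) fun p hp => ?_
      · have hpp := Nat.prime_of_mem_primesBelow hp
        have := RNC_prime σ hσ1 p hpp
        exact inv_nonneg.2 (by linarith)
      · have hpp := Nat.prime_of_mem_primesBelow hp
        exact RNC_geo _ _ (Real.rpow_nonneg (Nat.cast_nonneg p) _) (RNC_prime σ hσ1 p hpp) hq
    refine h3.trans ?_
    rw [← Real.exp_sum, Real.exp_le_exp, ← Finset.mul_sum]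
    refine mul_le_mul_of_nonneg_left ?_ hK0.le
    have h4 : ∑ n ∈ range y, ((n + 1 : ℕ) : ℝ) ^ (-σ) = ∑ n ∈ Ico 1 (y + 1), (n : ℝ) ^ (-σ) := by
      rw [Finset.sum_Ico_eq_sum_range, Nat.add_sub_cancel]
      refine Finset.sum_congr rfl fun n _ => ?_
      rw [add_comm 1 n]
    rw [h4]
    refine Finset.sum_le_sum_of_subset_of_nonneg (fun p hp => ?_) fun n _ _ => Real.rpow_nonneg (Nat.cast_nonneg n) _
    have hpp := Nat.prime_of_mem_primesBelow hp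
    have hp2 := Nat.lt_of_mem_primesBelow hp
    exact mem_Ico.2 ⟨hpp.one_lt.le, hp2⟩
  have h5 := RNC_sum σ (by linarith) hσ2 y
  have h6 : (y : ℝ) ^ (1 - σ) / (1 - σ) ≤ 2 * c * L ^ (1 - c * ε / 2) := by
    have h7 : (y : ℝ) ^ (1 - σ) ≤ L ^ (1 - c * ε / 2) := by
      calc (y : ℝ) ^ (1 - σ) ≤ (L ^ c) ^ (1 - σ) := Real.rpow_le_rpow (Nat.cast_nonneg y) hy (by linarith)
        _ = L ^ (1 - c * ε / 2) := by
          rw [← Real.rpow_mul hL.le]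
          have : c * (1 - σ) = 1 - c * ε / 2 := by
            rw [hσ]
            field_simp
            ring
          rw [this]
    have h8 : 0 ≤ L ^ (1 - c * ε / 2) := Real.rpow_nonneg hL.le _
    rw [div_le_iff₀ (by linarith)]
    have h9 : 1 ≤ 2 * c * (1 - σ) := by
      have : 2 * c * (1 / c / 2) = 1 := by field_simp
      nlinarith
    calc (y : ℝ) ^ (1 - σ) ≤ L ^ (1 - c * ε / 2) * 1 := by rw [mul_one]; exact h7
      _ ≤ L ^ (1 - c * ε / 2) * (2 * c * (1 - σ)) := mul_le_mul_of_nonneg_left h9 h8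
      _ = 2 * c * L ^ (1 - c * ε / 2) * (1 - σ) := by ring
  have h10 : K * (2 * c * L ^ (1 - c * ε / 2)) ≤ ε / 4 * L := by
    have h11 : L ^ (1 - c * ε / 2) * L ^ (c * ε / 2) = L := by
      rw [← Real.rpow_add hL]
      have : 1 - c * ε / 2 + c * ε / 2 = 1 := by ring
      rw [this, Real.rpow_one]
    have h12 : 0 ≤ L ^ (1 - c * ε / 2) := Real.rpow_nonneg hL.le _
    have h13 : L ^ (1 - c * ε / 2) * (8 * c * K / ε) ≤ L := by
      have h13a : 8 * c * K / ε ≤ L ^ (c * ε / 2) := by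
        refine le_trans ?_ hL1
        have : 0 ≤ 8 * c * K / ε := by positivity
        linarith
      calc L ^ (1 - c * ε / 2) * (8 * c * K / ε) ≤ L ^ (1 - c * ε / 2) * L ^ (c * ε / 2) :=
            mul_le_mul_of_nonneg_left h13a h12
        _ = L := h11
    have h14 : K * (2 * c * L ^ (1 - c * ε / 2)) = ε / 4 * (L ^ (1 - c * ε / 2) * (8 * c * K / ε)) := by
      field_simp
      ring
    rw [h14]
    exact mul_le_mul_of_nonneg_left h13 (by linarith)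
  have h15 : ∏ p ∈ Nat.primesBelow (y + 1), (1 - (p : ℝ) ^ (-σ))⁻¹ ≤ Real.exp (ε / 4 * L) := by
    refine h2.trans (Real.exp_le_exp.2 ?_)
    exact (mul_le_mul_of_nonneg_left (h5.trans h6) hK0.le).trans h10
  have h16 : (2 * X : ℝ) ^ σ ≤ Real.exp (1 + σ * L) := by
    rw [Real.mul_rpow (by norm_num) hX0.le, Real.exp_add]
    refine mul_le_mul ?_ ?_ (Real.rpow_nonneg hX0.le _) (Real.exp_pos _).le
    · calc (2 : ℝ) ^ σ ≤ (2 : ℝ) ^ (1 : ℝ) := Real.rpow_le_rpow_of_exponent_le (by norm_num) hσ2.le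
        _ = 2 := Real.rpow_one 2
        _ ≤ Real.exp 1 := by linarith [Real.add_one_le_exp 1]
    · rw [Real.rpow_def_of_pos hX0, mul_comm]
  calc (#E : ℝ) ≤ (2 * X : ℝ) ^ σ * ∏ p ∈ Nat.primesBelow (y + 1), (1 - (p : ℝ) ^ (-σ))⁻¹ := h1
    _ ≤ Real.exp (1 + σ * L) * Real.exp (ε / 4 * L) := by
        refine mul_le_mul h16 h15 (Finset.prod_nonneg fun p hp => ?_) (Real.exp_pos _).le
        have hpp := Nat.prime_of_mem_primesBelow hp
        have := RNC_prime σ hσ1 p hpp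
        exact inv_nonneg.2 (by linarith)
    _ = Real.exp (1 + σ * L + ε / 4 * L) := by rw [← Real.exp_add]
    _ ≤ Real.exp (L * (1 - 1 / c + ε)) := by
        rw [Real.exp_le_exp, hσ]
        nlinarith
    _ = (X : ℝ) ^ (1 - 1 / c + ε) := by rw [Real.rpow_def_of_pos hX0]

theorem RNC : RNC_stmt := by
  intro c ε hc hε
  have hc0 : 0 < c := by linarith
  set e : ℝ := min ε (1 / c) with he
  have he0 : 0 < e := lt_min hε (by positivity)
  have he1 : e ≤ 1 / c := min_le_right _ _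
  have hlog : Filter.Tendsto (fun X : ℕ => Real.log (X : ℝ)) Filter.atTop Filter.atTop :=
    Real.tendsto_log_atTop.comp tendsto_natCast_atTop_atTop
  have h1 : ∀ᶠ X : ℕ in Filter.atTop,
      8 * c * (1 - (2 : ℝ) ^ (-(1 - 1 / c + e / 2)))⁻¹ / e * 3 ≤ Real.log (X : ℝ) ^ (c * e / 2) :=
    ((tendsto_rpow_atTop (by positivity : 0 < c * e / 2)).comp hlog).eventually_ge_atTop _
  have h2 : ∀ᶠ X : ℕ in Filter.atTop, 4 / e ≤ Real.log (X : ℝ) := hlog.eventually_ge_atTop _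
  obtain ⟨X₀, hX₀⟩ := Filter.eventually_atTop.1 ((h1.and h2).and (Filter.eventually_ge_atTop 1))
  refine ⟨X₀, fun X hX y hy E hE => ?_⟩
  obtain ⟨⟨ha, hb⟩, hd⟩ := hX₀ X hX
  have hb' : 4 ≤ e * Real.log X := by
    rw [div_le_iff₀ he0] at hb
    linarith
  refine (RNC_main c e hc he0 he1 X y hd ha hb' hy E hE).trans ?_
  refine Real.rpow_le_rpow_of_exponent_le (by exact_mod_cast hd) ?_
  have : e ≤ ε := min_le_left _ _
  linarith

end Pool.Agent.DFO
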