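import Pool.Agent.helper7.DF.Spec2

set_option autoImplicit false

open Finset

namespace Pool.Agent.DFO

/-- `1/(1-t) ≤ exp (3t)` for `0 ≤ t ≤ 3/4`. -/
theorem RNK_geo (t : ℝ) (h0 : 0 ≤ t) (h1 : t ≤ 3 / 4) : (1 - t)⁻¹ ≤ Real.exp (3 * t) := by
  have h2 : 0 < 1 - t := by linarith
  rw [inv_le_iff_one_le_mul₀ h2]
  have h3 := Real.quadratic_le_exp_of_nonneg (show (0 : ℝ) ≤ 3 * t by linarith)
  have h4 : 1 ≤ (1 + 3 * t + (3 * t) ^ 2 / 2) * (1 - t) := by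
    nlinarith [mul_nonneg h0 h0, mul_nonneg h0 (show (0 : ℝ) ≤ 3 / 4 - t by linarith),
      mul_nonneg (mul_nonneg h0 h0) (show (0 : ℝ) ≤ 3 / 4 - t by linarith)]
  exact h4.trans (mul_le_mul_of_nonneg_right h3 h2.le)

/-- The multiplicative function `n ^ (-σ)`. -/
noncomputable def RNK_f (σ : ℝ) : ℕ →* ℝ where
  toFun n := (n : ℝ) ^ (-σ)
  map_one' := by
    rw [Nat.cast_one, Real.one_rpow]
  map_mul' m n := by
    rw [Nat.cast_mul, Real.mul_rpow (Nat.cast_nonneg m) (Nat.cast_nonneg n)]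

theorem RNK_f_apply (σ : ℝ) (n : ℕ) : RNK_f σ n = (n : ℝ) ^ (-σ) := rfl

theorem RNK_prime (σ : ℝ) (hσ : 1 / 2 ≤ σ) (p : ℕ) (hp : p.Prime) : (p : ℝ) ^ (-σ) ≤ 3 / 4 := by
  have h2 : (2 : ℝ) ≤ p := by exact_mod_cast hp.two_le
  have h3 : (p : ℝ) ^ (-σ) ≤ (2 : ℝ) ^ (-σ) := Real.rpow_le_rpow_of_nonpos (by norm_num) h2 (by linarith)
  have h4 : (2 : ℝ) ^ (-σ) ≤ (2 : ℝ) ^ (-(1 / 2) : ℝ) := Real.rpow_le_rpow_of_exponent_le (by norm_num) (by linarith)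
  have h5 : (0 : ℝ) ≤ (2 : ℝ) ^ (-(1 / 2) : ℝ) := Real.rpow_nonneg (by norm_num) _
  have h6 : ((2 : ℝ) ^ (-(1 / 2) : ℝ)) ^ 2 = 1 / 2 := by
    rw [← Real.rpow_natCast, ← Real.rpow_mul (by norm_num)]
    norm_num
  have h7 : (2 : ℝ) ^ (-(1 / 2) : ℝ) ≤ 3 / 4 := by nlinarith
  linarith

/-- Rankin's bound. -/
theorem RNK_rankin (σ : ℝ) (hσ : 1 / 2 ≤ σ) (X y : ℕ) (E : Finset ℕ)
    (hE : ∀ m ∈ E, 0 < m ∧ m ≤ 2 * X ∧ ∀ p : ℕ, p.Prime → p ∣ m → p ≤ y) :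
    (#E : ℝ) ≤ (2 * X : ℝ) ^ σ * ∏ p ∈ Nat.primesBelow (y + 1), (1 - (p : ℝ) ^ (-σ))⁻¹ := by
  have h1 := EulerProduct.summable_and_hasSum_smoothNumbers_prod_primesBelow_geometric (f := RNK_f σ)
    (fun {p} hp => by
      rw [RNK_f_apply, Real.norm_of_nonneg (Real.rpow_nonneg (Nat.cast_nonneg p) _)]
      linarith [RNK_prime σ hσ p hp]) (y + 1)
  have h2 : HasSum (Set.indicator (Nat.smoothNumbers (y + 1)) (fun m : ℕ => RNK_f σ m))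
      (∏ p ∈ Nat.primesBelow (y + 1), (1 - RNK_f σ p)⁻¹) := by
    rw [← hasSum_subtype_iff_indicator]
    exact h1.2
  have h3 : ∑ m ∈ E, Set.indicator (Nat.smoothNumbers (y + 1)) (fun m : ℕ => RNK_f σ m) m ≤
      ∏ p ∈ Nat.primesBelow (y + 1), (1 - RNK_f σ p)⁻¹ :=
    sum_le_hasSum E (fun m _ => Set.indicator_nonneg (fun n _ => by
      rw [RNK_f_apply]; exact Real.rpow_nonneg (Nat.cast_nonneg n) _) m) h2
  have h4 : ∀ m ∈ E, m ∈ Nat.smoothNumbers (y + 1) := by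
    intro m hm
    obtain ⟨ha, -, hc⟩ := hE m hm
    rw [Nat.mem_smoothNumbers']
    intro p hp hpm
    exact Nat.lt_succ_of_le (hc p hp hpm)
  have h5 : ∑ m ∈ E, Set.indicator (Nat.smoothNumbers (y + 1)) (fun m : ℕ => RNK_f σ m) m =
      ∑ m ∈ E, (m : ℝ) ^ (-σ) := by
    refine Finset.sum_congr rfl fun m hm => ?_
    rw [Set.indicator_of_mem (h4 m hm), RNK_f_apply]
  rw [h5] at h3
  have h6 : (#E : ℝ) ≤ (2 * X : ℝ) ^ σ * ∑ m ∈ E, (m : ℝ) ^ (-σ) := by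
    rw [Finset.mul_sum]
    have h7 : (#E : ℝ) = ∑ _m ∈ E, (1 : ℝ) := by
      rw [Finset.sum_const, nsmul_eq_mul, mul_one]
    rw [h7]
    refine Finset.sum_le_sum fun m hm => ?_
    obtain ⟨ha, hb, -⟩ := hE m hm
    have hm0 : (0 : ℝ) < m := by exact_mod_cast ha
    have hm1 : (m : ℝ) ≤ 2 * X := by exact_mod_cast hb
    rw [Real.rpow_neg hm0.le, ← div_eq_mul_inv, one_le_div (Real.rpow_pos_of_pos hm0 _)]
    exact Real.rpow_le_rpow hm0.le hm1 (by linarith)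
  refine h6.trans (mul_le_mul_of_nonneg_left h3 (Real.rpow_nonneg (by positivity) _))

/-- `∑_{n ≤ y} n^(-σ) ≤ y^(1-σ)/(1-σ)`. -/
theorem RNK_sum (σ : ℝ) (h0 : 0 ≤ σ) (h1 : σ < 1) (y : ℕ) :
    ∑ n ∈ range y, ((n + 1 : ℕ) : ℝ) ^ (-σ) ≤ (y : ℝ) ^ (1 - σ) / (1 - σ) := by
  have hs : 0 < 1 - σ := by linarith
  induction y with
  | zero =>
    rw [Finset.range_zero, Finset.sum_empty]
    exact div_nonneg (Real.rpow_nonneg (Nat.cast_nonneg _) _) hs.le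
  | succ n ih =>
    rw [Finset.sum_range_succ]
    have hn : (0 : ℝ) < ((n + 1 : ℕ) : ℝ) := by exact_mod_cast Nat.succ_pos n
    have h2 : (n : ℝ) ^ (1 - σ) ≤ ((n + 1 : ℕ) : ℝ) ^ (1 - σ) - (1 - σ) * ((n + 1 : ℕ) : ℝ) ^ (-σ) := by
      have h3 := _root_.rpow_one_add_le_one_add_mul_self (s := -(1 / ((n + 1 : ℕ) : ℝ))) (p := 1 - σ)
        (by
          have : 1 / ((n + 1 : ℕ) : ℝ) ≤ 1 := by
            rw [div_le_one hn]
            exact_mod_cast Nat.succ_le_succ (Nat.zero_le n)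
          linarith) hs.le (by linarith)
      have h4 : (n : ℝ) = ((n + 1 : ℕ) : ℝ) * (1 + -(1 / ((n + 1 : ℕ) : ℝ))) := by
        field_simp
        push_cast
        ring
      have h5 : (0 : ℝ) ≤ 1 + -(1 / ((n + 1 : ℕ) : ℝ)) := by
        have : 1 / ((n + 1 : ℕ) : ℝ) ≤ 1 := by
          rw [div_le_one hn]
          exact_mod_cast Nat.succ_le_succ (Nat.zero_le n)
        linarith
      have h6 : (n : ℝ) ^ (1 - σ) = ((n + 1 : ℕ) : ℝ) ^ (1 - σ) * (1 + -(1 / ((n + 1 : ℕ) : ℝ))) ^ (1 - σ) := by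
        rw [← Real.mul_rpow hn.le h5, ← h4]
      rw [h6]
      have h7 : ((n + 1 : ℕ) : ℝ) ^ (-σ) = ((n + 1 : ℕ) : ℝ) ^ (1 - σ) * (1 / ((n + 1 : ℕ) : ℝ)) := by
        rw [one_div, ← Real.rpow_neg_one, ← Real.rpow_add hn]
        congr 1
        ring
      rw [h7]
      calc ((n + 1 : ℕ) : ℝ) ^ (1 - σ) * (1 + -(1 / ((n + 1 : ℕ) : ℝ))) ^ (1 - σ)
          ≤ ((n + 1 : ℕ) : ℝ) ^ (1 - σ) * (1 + (1 - σ) * -(1 / ((n + 1 : ℕ) : ℝ))) :=
            mul_le_mul_of_nonneg_left h3 (Real.rpow_nonneg hn.le _)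
        _ = ((n + 1 : ℕ) : ℝ) ^ (1 - σ) - (1 - σ) * (((n + 1 : ℕ) : ℝ) ^ (1 - σ) * (1 / ((n + 1 : ℕ) : ℝ))) := by
            ring
    have h8 : (n : ℝ) ^ (1 - σ) / (1 - σ) + ((n + 1 : ℕ) : ℝ) ^ (-σ) ≤ ((n + 1 : ℕ) : ℝ) ^ (1 - σ) / (1 - σ) := by
      rw [div_add' _ _ _ hs.ne', div_le_div_iff_of_pos_right hs]
      linarith
    linarith

theorem RNK_main (ε : ℝ) (hε : 0 < ε) (hε1 : ε ≤ 1 / 12) (X y : ℕ) (hX : 1 ≤ X)
    (hL1 : 48 / ε ≤ Real.log X ^ (3 * ε / 2)) (hL2 : 4 ≤ ε * Real.log X)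
    (hy : (y : ℝ) ≤ Real.log X ^ 3) (E : Finset ℕ)
    (hE : ∀ m ∈ E, 0 < m ∧ m ≤ 2 * X ∧ ∀ p : ℕ, p.Prime → p ∣ m → p ≤ y) :
    (#E : ℝ) ≤ (X : ℝ) ^ (2 / 3 + ε) := by
  set L : ℝ := Real.log X with hLdef
  have hL : 0 < L := by
    by_contra h
    have : ε * L ≤ 0 := mul_nonpos_of_nonneg_of_nonpos hε.le (not_lt.1 h)
    linarith
  have hX0 : (0 : ℝ) < X := by exact_mod_cast hX
  set σ : ℝ := 2 / 3 + ε / 2 with hσ
  have hσ1 : 1 / 2 ≤ σ := by rw [hσ]; linarith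
  have hσ2 : σ < 1 := by rw [hσ]; linarith
  have hσ3 : 1 / 4 ≤ 1 - σ := by rw [hσ]; linarith
  have h1 := RNK_rankin σ hσ1 X y E hE
  -- the product
  have h2 : ∏ p ∈ Nat.primesBelow (y + 1), (1 - (p : ℝ) ^ (-σ))⁻¹ ≤ Real.exp (3 * ∑ n ∈ range y, ((n + 1 : ℕ) : ℝ) ^ (-σ)) := by
    have h3 : ∏ p ∈ Nat.primesBelow (y + 1), (1 - (p : ℝ) ^ (-σ))⁻¹ ≤
        ∏ p ∈ Nat.primesBelow (y + 1), Real.exp (3 * (p : ℝ) ^ (-σ)) := by
      refine Finset.prod_le_prod (fun p hp => ?_) fun p hp => ?_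
      · have hpp := Nat.prime_of_mem_primesBelow hp
        have := RNK_prime σ hσ1 p hpp
        exact inv_nonneg.2 (by linarith)
      · have hpp := Nat.prime_of_mem_primesBelow hp
        exact RNK_geo _ (Real.rpow_nonneg (Nat.cast_nonneg p) _) (RNK_prime σ hσ1 p hpp)
    refine h3.trans ?_
    rw [← Real.exp_sum, Real.exp_le_exp, ← Finset.mul_sum]
    refine mul_le_mul_of_nonneg_left ?_ (by norm_num)
    have h4 : ∑ n ∈ range y, ((n + 1 : ℕ) : ℝ) ^ (-σ) = ∑ n ∈ Ico 1 (y + 1), (n : ℝ) ^ (-σ) := by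
      rw [Finset.sum_Ico_eq_sum_range, Nat.add_sub_cancel]
      refine Finset.sum_congr rfl fun n _ => ?_
      rw [add_comm 1 n]
    rw [h4]
    refine Finset.sum_le_sum_of_subset_of_nonneg (fun p hp => ?_) fun n _ _ => Real.rpow_nonneg (Nat.cast_nonneg n) _
    have hpp := Nat.prime_of_mem_primesBelow hp
    have hp2 := Nat.lt_of_mem_primesBelow hp
    exact mem_Ico.2 ⟨hpp.one_lt.le, hp2⟩
  have h5 := RNK_sum σ (by linarith) hσ2 y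
  have h6 : (y : ℝ) ^ (1 - σ) / (1 - σ) ≤ 4 * L ^ (1 - 3 * ε / 2) := by
    have h7 : (y : ℝ) ^ (1 - σ) ≤ L ^ (1 - 3 * ε / 2) := by
      calc (y : ℝ) ^ (1 - σ) ≤ (L ^ 3) ^ (1 - σ) := Real.rpow_le_rpow (Nat.cast_nonneg y) hy (by linarith)
        _ = L ^ (1 - 3 * ε / 2) := by
          rw [← Real.rpow_natCast, ← Real.rpow_mul hL.le]
          congr 1
          rw [hσ]
          push_cast
          ring
    have h8 : 0 ≤ (y : ℝ) ^ (1 - σ) := Real.rpow_nonneg (Nat.cast_nonneg y) _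
    rw [div_le_iff₀ (by linarith)]
    have h9 : 0 ≤ L ^ (1 - 3 * ε / 2) := Real.rpow_nonneg hL.le _
    nlinarith
  have h10 : 12 * L ^ (1 - 3 * ε / 2) ≤ ε / 4 * L := by
    have h11 : L ^ (1 - 3 * ε / 2) * L ^ (3 * ε / 2) = L := by
      rw [← Real.rpow_add hL]
      have : 1 - 3 * ε / 2 + 3 * ε / 2 = 1 := by ring
      rw [this, Real.rpow_one]
    have h12 : 0 ≤ L ^ (1 - 3 * ε / 2) := Real.rpow_nonneg hL.le _
    have h13 : L ^ (1 - 3 * ε / 2) * (48 / ε) ≤ L := by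
      calc L ^ (1 - 3 * ε / 2) * (48 / ε) ≤ L ^ (1 - 3 * ε / 2) * L ^ (3 * ε / 2) :=
            mul_le_mul_of_nonneg_left hL1 h12
        _ = L := h11
    have h14 : 12 * L ^ (1 - 3 * ε / 2) = ε / 4 * (L ^ (1 - 3 * ε / 2) * (48 / ε)) := by
      field_simp
      ring
    rw [h14]
    exact mul_le_mul_of_nonneg_left h13 (by linarith)
  have h15 : ∏ p ∈ Nat.primesBelow (y + 1), (1 - (p : ℝ) ^ (-σ))⁻¹ ≤ Real.exp (ε / 4 * L) := by
    refine h2.trans (Real.exp_le_exp.2 ?_)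
    linarith
  have h16 : (2 * X : ℝ) ^ σ ≤ Real.exp (1 + σ * L) := by
    rw [Real.mul_rpow (by norm_num) hX0.le, Real.exp_add]
    refine mul_le_mul ?_ ?_ (Real.rpow_nonneg hX0.le _) (Real.exp_pos _).le
    · calc (2 : ℝ) ^ σ ≤ (2 : ℝ) ^ (1 : ℝ) := Real.rpow_le_rpow_of_exponent_le (by norm_num) hσ2.le
        _ = 2 := Real.rpow_one 2
        _ ≤ Real.exp 1 := by linarith [Real.add_one_le_exp 1]
    · rw [Real.rpow_def_of_pos hX0, mul_comm]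
  calc (#E : ℝ) ≤ (2 * X : ℝ) ^ σ * ∏ p ∈ Nat.primesBelow (y + 1), (1 - (p : ℝ) ^ (-σ))⁻¹ := h1
    _ ≤ Real.exp (1 + σ * L) * Real.exp (ε / 4 * L) := by
        refine mul_le_mul h16 h15 (Finset.prod_nonneg fun p hp => ?_) (Real.exp_pos _).le
        have hpp := Nat.prime_of_mem_primesBelow hp
        have := RNK_prime σ hσ1 p hpp
        exact inv_nonneg.2 (by linarith)
    _ = Real.exp (1 + σ * L + ε / 4 * L) := by rw [← Real.exp_add]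
    _ ≤ Real.exp (L * (2 / 3 + ε)) := by
        rw [Real.exp_le_exp, hσ]
        nlinarith
    _ = (X : ℝ) ^ (2 / 3 + ε) := by rw [Real.rpow_def_of_pos hX0]

theorem RNK : RNK_stmt := by
  intro ε hε
  set e : ℝ := min ε (1 / 12) with he
  have he0 : 0 < e := lt_min hε (by norm_num)
  have he1 : e ≤ 1 / 12 := min_le_right _ _
  have hlog : Filter.Tendsto (fun X : ℕ => Real.log (X : ℝ)) Filter.atTop Filter.atTop :=
    Real.tendsto_log_atTop.comp tendsto_natCast_atTop_atTop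
  have h1 : ∀ᶠ X : ℕ in Filter.atTop, 48 / e ≤ Real.log (X : ℝ) ^ (3 * e / 2) :=
    ((tendsto_rpow_atTop (by positivity : 0 < 3 * e / 2)).comp hlog).eventually_ge_atTop _
  have h2 : ∀ᶠ X : ℕ in Filter.atTop, 4 / e ≤ Real.log (X : ℝ) := hlog.eventually_ge_atTop _
  obtain ⟨X₀, hX₀⟩ := Filter.eventually_atTop.1 ((h1.and h2).and (Filter.eventually_ge_atTop 1))
  refine ⟨X₀, fun X hX y hy E hE => ?_⟩
  obtain ⟨⟨ha, hb⟩, hc⟩ := hX₀ X hX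
  have hb' : 4 ≤ e * Real.log X := by
    rw [div_le_iff₀ he0] at hb
    linarith
  refine (RNK_main e he0 he1 X y hc ha hb' hy E hE).trans ?_
  refine Real.rpow_le_rpow_of_exponent_le (by exact_mod_cast hc) ?_
  have : e ≤ ε := min_le_left _ _
  linarith

end Pool.Agent.DFO
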